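import Pool.Agent.R597.RI.Cls

/-!
# Vanishing of cohomology and connectivity of cubic hypersurfaces
-/

set_option autoImplicit false

open CategoryTheory CategoryTheory.Limits AlgebraicGeometry MvPolynomial
open Pool.Agent.R904.CU Pool.Agent.R597.RD Pool.Agent.R597.RI

namespace Pool.Agent.R597.BS

section

variable {K : Type} [CommRing K]

/-- the point -/
noncomputable abbrev Pt (K : Type) [CommRing K] : Sch K := Over.mk (𝟙 (Spec (.of K)))

/-- There are Gysin sequences `H^p(X, q) → H^p(U, q) → H^i(Z, j) → H^{p+1}(X, q) → H^{p+1}(U, q)`,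
`p = i + 2c - 1`, `q = j + c`, for all smooth closed subschemes `Z` of pure codimension `c` in smooth
schemes `X`, with complement `U`. -/
def HasResidues (T : Coh K) : Prop :=
  ∀ (c d : ℕ) {X Z U : Sch K} (z : Z ⟶ X) (u : U ⟶ X), IsSm (d + c) X → IsSm d Z →
    IsPair z u → ∀ i j p q : ℤ, p = i + 2 * c - 1 → q = j + c →
      ∃ res : T.G U p q →+ T.G Z i j, IsResidue T u res

/-- The properties of motivic cohomology which are used. -/
structure IsCoh (T : Coh K) : Prop where
  funct : T.IsFunctorial
  bundle : HasBundles T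
  gysin : HasResidues T

/-- `H^i(X, j) = 0` -/
def Vanishes (T : Coh K) (X : Sch K) (i j : ℤ) : Prop := Subsingleton (T.G X i j)

/-- the structure morphism -/
noncomputable def toPt (X : Sch K) : X ⟶ Pt K := Over.homMk X.hom (Category.comp_id _)

/-- All classes in `H^i(X, j)` are pull-backs of classes of the point. -/
def IsConstant (T : Coh K) (X : Sch K) (i j : ℤ) : Prop :=
  Function.Surjective (T.pull (toPt X) i j)

/-- The cohomology of all `X` in the class `C` vanishes in all negative degrees. -/
def NegativeVanish (T : Coh K) (C : Sch K → Prop) : Prop :=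
  ∀ X : Sch K, C X → ∀ i j : ℤ, i < 0 → Vanishes T X i j

/-- `V(g)` is smooth of pure codimension `c` in the affine space, and not all `gₖ` are zero. -/
def IsSmCodim {σ κ : Type} [Fintype σ] (g : κ → MvPolynomial σ K) (c : ℕ) : Prop :=
  (∃ d : ℕ, Fintype.card σ = d + c ∧ IsSm d (vScheme g)) ∧ ∃ k, g k ≠ 0

/-- `V(g)` is an affine bundle over `X`. -/
def IsBundleOver {σ κ : Type} (g : κ → MvPolynomial σ K) (X : Sch K) : Prop :=
  ∃ (n : ℕ) (π : vScheme g ⟶ X), IsAffineBundle n π.left

/-- For all smooth affine cubic hypersurfaces `W : ∑ yₖ gₖ(x) = 1`, where the `gₖ` are polynomials of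
degree at most two, not all zero, such that `V(g)` is smooth of pure codimension `c` and an affine bundle
over a member of the class `C`: in the degrees `p < 2c - 1` and the weights `q ∈ D` the cohomology of
`W` is constant. -/
def CubicsConnected (T : Coh K) (C : Sch K → Prop) (D : Set ℤ) : Prop :=
  ∀ (σ κ : Type) [Fintype σ] [Fintype κ] (g : κ → MvPolynomial σ K) (c : ℕ),
    (∀ k, (g k).totalDegree ≤ 2) → IsSmCodim g c → (∃ X : Sch K, C X ∧ IsBundleOver g X) →
    ∀ p q : ℤ, p < 2 * c - 1 → q ∈ D → IsConstant T (Over.mk (hyp (bigPoly g))) p q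

end

end Pool.Agent.R597.BS
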