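import Pool.Agent.R597.BS.Defs

/-!
# Vanishing for `X` and connectivity of cubic hypersurfaces
-/

set_option autoImplicit false

open CategoryTheory CategoryTheory.Limits AlgebraicGeometry MvPolynomial
open Pool.Agent.R904.CU Pool.Agent.R597.RD Pool.Agent.R597.RI

namespace Pool.Agent.R597.BS

open Pool.Agent.R597.LA (isAffineBundle_space isAffineBundle_iso toPoint sm_point)

section

variable {K : Type} [CommRing K] {T : Coh K}

theorem comp_toPt {X Y : Sch K} (f : Y ⟶ X) : f ≫ toPt X = toPt Y := by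
  apply Over.OverMorphism.ext
  exact Over.w f

theorem constant_iff (hT : T.IsFunctorial) {X Y : Sch K} (f : Y ⟶ X) {i j : ℤ}
    (hf : Function.Bijective (T.pull f i j)) : IsConstant T X i j ↔ IsConstant T Y i j := by
  have h1 : ∀ w, T.pull (toPt Y) i j w = T.pull f i j (T.pull (toPt X) i j w) := by
    intro w
    rw [← comp_toPt f, pull_comp hT]
  constructor
  · intro h y
    obtain ⟨x, rfl⟩ := hf.2 y
    obtain ⟨w, rfl⟩ := h x
    exact ⟨w, h1 w⟩
  · intro h x
    obtain ⟨w, hw⟩ := h (T.pull f i j x)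
    refine ⟨w, hf.1 ?_⟩
    rw [← h1, hw]

theorem vanishes_iff {X Y : Sch K} (f : Y ⟶ X) {i j : ℤ}
    (hf : Function.Bijective (T.pull f i j)) : Vanishes T X i j ↔ Vanishes T Y i j := by
  unfold Vanishes
  constructor
  · intro h
    exact hf.2.subsingleton
  · intro h
    exact hf.1.subsingleton

theorem bijective_iso (hT : T.IsFunctorial) {X Y : Sch K} (e : X ≅ Y) (i j : ℤ) :
    Function.Bijective (T.pull e.hom i j) := by
  constructor
  · intro x y h
    have h2 := congrArg (T.pull e.inv i j) h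
    rwa [← pull_comp hT, ← pull_comp hT, e.inv_hom_id, pull_id hT, pull_id hT] at h2
  · intro y
    refine ⟨T.pull e.inv i j y, ?_⟩
    rw [← pull_comp hT, e.hom_inv_id, pull_id hT]

/-- **The residue and constant classes.** -/
theorem constant_residue (hT : IsCoh T) {c d n : ℕ} {X Z U : Sch K} (z : Z ⟶ X) (u : U ⟶ X)
    (hX : IsSm (d + c) X) (hZ : IsSm d Z) (hz : IsPair z u) (hpt : IsSm 0 (Pt K))
    (hb : IsAffineBundle n (toPt X).left) (s : Pt K ⟶ U) {i j p q : ℤ} (hp : p = i + 2 * c - 1)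
    (hq : q = j + c) : IsConstant T U p q ↔ Vanishes T Z i j := by
  obtain ⟨res, push, e1, e2, e3⟩ := hT.gysin c d z u hX hZ hz i j p q hp hq
  have hs : s ≫ u ≫ toPt X = 𝟙 (Pt K) := by
    rw [comp_toPt, comp_toPt]
    apply Over.OverMorphism.ext
    rfl
  have hsec : ∀ (a b : ℤ) (w : T.G (Pt K) a b),
      T.pull s a b (T.pull u a b (T.pull (toPt X) a b w)) = w := by
    intro a b w
    rw [← pull_comp hT.funct, ← pull_comp hT.funct, Category.assoc, hs, pull_id hT.funct]
  have hpush : ∀ y, push y = 0 := by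
    intro y
    obtain ⟨w, hw⟩ := (hT.bundle n 0 (toPt X) hpt hb (p + 1) q).2 (push y)
    have h1 : T.pull u (p + 1) q (push y) = 0 := (e3 _).2 ⟨y, rfl⟩
    have h2 := hsec _ _ w
    rw [hw, h1, map_zero] at h2
    rw [← hw, ← h2, map_zero]
  constructor
  · intro h
    refine ⟨fun y y' => ?_⟩
    have key : ∀ y : T.G Z i j, y = 0 := by
      intro y
      obtain ⟨x, rfl⟩ := (e2 y).1 (hpush y)
      obtain ⟨w, rfl⟩ := h x
      rw [← comp_toPt u, pull_comp hT.funct]
      exact (e1 _).2 ⟨_, rfl⟩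
    rw [key y, key y']
  · intro h x
    have h' : Subsingleton (T.G Z i j) := h
    obtain ⟨x', rfl⟩ := (e1 x).1 (Subsingleton.elim _ _)
    obtain ⟨w, rfl⟩ := (hT.bundle n 0 (toPt X) hpt hb p q).2 x'
    exact ⟨w, by rw [← comp_toPt u, pull_comp hT.funct]⟩

end

section

variable {K : Type} [Field K]

/-- a rational point outside `V(g)` -/
theorem exists_point [Infinite K] {σ κ : Type} [Fintype σ] [Fintype κ] (g : κ → MvPolynomial σ K)
    (hg : ∃ k, g k ≠ 0) :
    Nonempty (Pt K ⟶ Over.mk ((openU g).ι ≫ (SpecO K (MvPolynomial σ K)).hom)) := by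
  obtain ⟨k, hk⟩ := hg
  obtain ⟨b, hb⟩ : ∃ b : σ → K, eval b (g k) ≠ 0 := by
    by_contra hcon
    push Not at hcon
    exact hk (MvPolynomial.funext fun b => by rw [hcon b, map_zero])
  let X : Sch K := SpecO K (MvPolynomial σ K)
  let s0 : Pt K ⟶ X := Over.homMk (Spec.map (CommRingCat.ofHom (eval b))) (by
    change Spec.map _ ≫ Spec.map _ = 𝟙 _
    rw [← Spec.map_comp, ← CommRingCat.ofHom_comp]
    have h1 : (eval b).comp (algebraMap K (MvPolynomial σ K)) = RingHom.id K := by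
      ext x
      change eval b (C x) = x
      rw [eval_C]
    rw [h1]
    exact Spec.map_id _)
  have hrange : Set.range s0.left ⊆ Set.range (openU g).ι := by
    rintro _ ⟨q, rfl⟩
    rw [Scheme.Opens.range_ι]
    by_contra hcon
    have h1 : eval b (g k) ∈ q.asIdeal := by
      by_contra h2
      apply hcon
      exact ⟨k, h2⟩
    exact q.2.ne_top (Ideal.eq_top_of_isUnit_mem _ h1 (isUnit_iff_ne_zero.2 hb))
  let s1 : (Pt K).left ⟶ (openU g : Scheme.{0}) := IsOpenImmersion.lift (openU g).ι s0.left hrange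
  have hs1 : s1 ≫ (openU g).ι = s0.left := IsOpenImmersion.lift_fac _ _ _
  exact ⟨Over.homMk s1 (by
    change s1 ≫ (openU g).ι ≫ X.hom = _
    rw [← Category.assoc, hs1]
    exact Over.w s0)⟩

variable {T : Coh K} (hT : IsCoh T)

include hT

/-- **Vanishing for `V(g)` and constant classes on the cubic hypersurface.** -/
theorem constant_cubic [Infinite K] {σ κ : Type} [Fintype σ] [Fintype κ]
    (g : κ → MvPolynomial σ K) {c : ℕ} (hg : IsSmCodim g c) {i j p q : ℤ}
    (hp : p = i + 2 * c - 1) (hq : q = j + c) :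
    IsConstant T (Over.mk (hyp (bigPoly g))) p q ↔ Vanishes T (vScheme g) i j := by
  obtain ⟨⟨d, hcard, hZ⟩, hg0⟩ := hg
  let X : Sch K := SpecO K (MvPolynomial σ K)
  have hX : IsSm (d + c) X := by
    have h := sm_poly K (sm_self (K := K)) σ
    rwa [add_zero, hcard] at h
  let z : vScheme g ⟶ X := specO (Ideal.Quotient.mkₐ K (Ideal.span (Set.range g)))
  have hz1 : IsClosedImmersion (closedZ g) := inferInstance
  have hz2 : Set.range (closedZ g) = (Set.range (openU g).ι)ᶜ := range_closedZ g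
  let U : Sch K := Over.mk ((openU g).ι ≫ X.hom)
  let u : U ⟶ X := Over.homMk (openU g).ι rfl
  have hu1 : IsOpenImmersion (openU g).ι := inferInstance
  have hU : IsSm (d + c) U := sm_open _ hX _
  let W : Sch K := SpecO K (Ring1 g)
  let π : W ⟶ U := Over.homMk (proj g) (by
    change proj g ≫ (openU g).ι ≫ X.hom = _
    rw [← Category.assoc, proj_ι]
    change Spec.map _ ≫ Spec.map _ = Spec.map _
    rw [← Spec.map_comp, ← CommRingCat.ofHom_comp])
  let iso : W ≅ Over.mk (hyp (bigPoly g)) := Over.isoMk (hypIso g) (hypIso_hom g)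
  obtain ⟨s⟩ := exists_point g hg0
  have hb : IsAffineBundle (Fintype.card σ) (toPt X).left := isAffineBundle_space σ
  rw [constant_iff hT.funct iso.hom (bijective_iso hT.funct iso p q),
    ← constant_iff hT.funct π (hT.bundle _ _ π hU (isAffineBundle_proj g) p q)]
  exact constant_residue hT z u hX hZ ⟨hz1, hu1, hz2⟩ sm_point hb s hp hq

omit hT in
/-- Over every smooth `X` there is such an affine bundle, in every large codimension. -/
theorem exists_model (hJ : Jouanolou K) (X' : Sch K) (hX : ∃ d, IsSm d X') :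
    ∃ c1 : ℕ, ∀ c : ℕ, c1 ≤ c → ∃ (σ κ : Type) (_ : Fintype σ) (_ : Fintype κ)
      (g : κ → MvPolynomial σ K), (∀ k, (g k).totalDegree ≤ 2) ∧ IsSmCodim g c ∧
      IsBundleOver g X' := by
  obtain ⟨d, hX⟩ := hX
  obtain ⟨X, ⟨⟨⟩⟩, f⟩ := X'
  change X ⟶ Spec (.of K) at f
  obtain ⟨n, E, π, hE, hπ⟩ := hJ d X f hX
  have hs1 := smooth_bundle π hπ
  have hs2 := hX.2
  have hs2' : SmoothOfRelativeDimension d f := hs2
  have hs : SmoothOfRelativeDimension (n + d) (π ≫ f) := inferInstance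
  have hsm : Smooth (π ≫ f) := SmoothOfRelativeDimension.smooth (n + d) _
  have hEs : IsSm (n + d) (Over.mk (π ≫ f)) :=
    ⟨⟨(inferInstance : LocallyOfFiniteType (π ≫ f)), (inferInstance : QuasiCompact (π ≫ f)),
      (inferInstance : IsSeparated (π ≫ f))⟩, hs⟩
  let π' : Over.mk (π ≫ f) ⟶ Over.mk f := Over.homMk π rfl
  obtain ⟨φ, hφ⟩ := Spec.map_surjective (E.isoSpec.inv ≫ π ≫ f)
  have hft2 : LocallyOfFiniteType (Spec.map φ) := by
    rw [hφ]
    infer_instance
  have hφ2 : φ.hom.FiniteType := HasRingHomProperty.Spec_iff.mp hft2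
  algebraize [φ.hom]
  let iso1 : Over.mk (π ≫ f) ≅ SpecO K Γ(E, ⊤) := Over.isoMk E.isoSpec (by
    have h3 : Spec.map (CommRingCat.ofHom (algebraMap K Γ(E, ⊤))) = E.isoSpec.inv ≫ π ≫ f := hφ
    change E.isoSpec.hom ≫ Spec.map (CommRingCat.ofHom (algebraMap K Γ(E, ⊤))) = _
    rw [h3, Iso.hom_inv_id_assoc]
    rfl)
  obtain ⟨σ, κ, _, _, g, hg, ⟨e⟩⟩ := exists_quadratic K Γ(E, ⊤)
  refine ⟨Fintype.card σ + 1, fun c hc => ?_⟩
  obtain ⟨r, hr⟩ : ∃ r : ℕ, Fintype.card σ + (r + 1) = n + d + c :=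
    ⟨n + d + c - Fintype.card σ - 1, by omega⟩
  let iso2 : vScheme (addV g (Fin (r + 1))) ≅ Over.mk (π ≫ f) :=
    ((isoO (addIso g (Fin (r + 1)))).symm.trans (isoO e).symm).trans iso1.symm
  let ρ : vScheme (addV g (Fin (r + 1))) ⟶ Over.mk f := iso2.hom ≫ π'
  have hi : IsIso iso2.hom.left := inferInstanceAs (IsIso ((Over.forget _).map iso2.hom))
  have hρ : IsAffineBundle n ρ.left := isAffineBundle_iso iso2.hom.left π hπ
  have hZ : IsSm (n + d) (vScheme (addV g (Fin (r + 1)))) := sm_iso iso2.symm hEs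
  have hcard : Fintype.card (σ ⊕ Fin (r + 1)) = n + d + c := by
    rw [Fintype.card_sum, Fintype.card_fin, hr]
  refine ⟨σ ⊕ Fin (r + 1), κ ⊕ Fin (r + 1), inferInstance, inferInstance,
    addV g (Fin (r + 1)), totalDegree_addV g _ hg, ⟨⟨n + d, hcard, hZ⟩, Sum.inr 0, ?_⟩, n, ρ, hρ⟩
  exact MvPolynomial.X_ne_zero _

/-- **Vanishing for `X` and constant classes on a cubic hypersurface.** -/
theorem constant_cubic_bundle [Infinite K] {σ κ : Type} [Fintype σ] [Fintype κ]
    (g : κ → MvPolynomial σ K) {c : ℕ} (hg : IsSmCodim g c) {X : Sch K} (hX : ∃ d, IsSm d X)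
    (hb : IsBundleOver g X) {i j p q : ℤ} (hp : p = i + 2 * c - 1) (hq : q = j + c) :
    IsConstant T (Over.mk (hyp (bigPoly g))) p q ↔ Vanishes T X i j := by
  obtain ⟨n, π, hπ⟩ := hb
  obtain ⟨d, hX⟩ := hX
  rw [vanishes_iff π (hT.bundle n d π hX hπ i j)]
  exact constant_cubic hT g hg hp hq

/-- **Vanishing in negative degrees for a class and connectivity of cubic hypersurfaces.** -/
theorem negative_iff [Infinite K] (hJ : Jouanolou K) {C : Sch K → Prop}
    (hC : ∀ X, C X → ∃ d, IsSm d X) {D : Set ℤ} (hD : ∀ B : ℤ, ∃ q ∈ D, B ≤ q) :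
    NegativeVanish T C ↔ CubicsConnected T C D := by
  constructor
  · intro h σ κ _ _ g c _ hg hX p q hpc _
    obtain ⟨X, hCX, hb⟩ := hX
    exact (constant_cubic_bundle hT g hg (hC X hCX) hb (i := p - 2 * c + 1) (j := q - c)
      (by omega) (by omega)).2 (h X hCX _ _ (by omega))
  · intro h X hCX i j hi
    obtain ⟨c1, hc1⟩ := exists_model hJ X (hC X hCX)
    obtain ⟨q, hq, hBq⟩ := hD (j + c1)
    obtain ⟨c, hc⟩ := Int.eq_ofNat_of_zero_le (show 0 ≤ q - j by omega)
    obtain ⟨σ, κ, _, _, g, hg2, hg, hb⟩ := hc1 c (by omega)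
    exact (constant_cubic_bundle hT g hg (hC X hCX) hb (i := i) (j := j) (p := i + 2 * c - 1)
      (q := q) rfl (by omega)).1 (h σ κ g c hg2 hg ⟨X, hCX, hb⟩ _ _ (by omega) hq)

end

end Pool.Agent.R597.BS
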